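import Pool.Agent.Helper64.BKA.Stmts2

set_option autoImplicit false

namespace BKA

/-- An element of order two lies, up to conjugation, in every subgroup of odd index. -/
theorem exists_conj_mem_of_odd {N : Type*} [Group N] [Finite N] (B : Subgroup N) (c : N)
    (hc : c ^ 2 = 1) (hodd : ¬ 2 ∣ B.index) : ∃ g : N, g⁻¹ * c * g ∈ B := by
  have : Fact (Nat.Prime 2) := ⟨Nat.prime_two⟩
  have hP : IsPGroup 2 (Subgroup.zpowers c) := by
    intro y
    refine ⟨1, ?_⟩
    obtain ⟨n, hn⟩ := Subgroup.mem_zpowers_iff.1 y.2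
    apply Subtype.ext
    rw [pow_one, Subgroup.coe_pow, ← hn, ← zpow_natCast, zpow_comm, zpow_natCast, hc, one_zpow,
      Subgroup.coe_one]
  have hcard : ¬ 2 ∣ Nat.card (N ⧸ B) := hodd
  obtain ⟨q, hq⟩ := hP.nonempty_fixed_point_of_prime_not_dvd_card (N ⧸ B) hcard
  obtain ⟨g, rfl⟩ := QuotientGroup.mk_surjective q
  refine ⟨g, ?_⟩
  have h1 := hq ⟨c, Subgroup.mem_zpowers c⟩
  have h2 : (QuotientGroup.mk (c * g) : N ⧸ B) = QuotientGroup.mk g := h1
  rw [QuotientGroup.eq] at h2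
  have h3 := B.inv_mem h2
  simpa [mul_assoc] using h3

/-- The index argument for a normal subgroup `N`. -/
theorem trg_aux {G : Type} [Group G] [Finite G] (N A B : Subgroup G) (c : G) (hcN : c ∈ N)
    (ε : N →* ℤˣ) (hAB : A ≤ B) (hc2 : c ^ 2 = 1) (hconj : ∀ g : G, g * c * g⁻¹ ∉ B)
    (hA : ∀ x : N, (x : G) ∈ A → ε x = 1) (x : N) (hx : (x : G) ∈ B) (hne : ε x ≠ 1) :
    4 ∣ A.relIndex N := by
  have hxB : x ∈ B.subgroupOf N := Subgroup.mem_subgroupOf.2 hx
  have hle : A.subgroupOf N ≤ ε.ker ⊓ B.subgroupOf N := by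
    intro y hy
    refine Subgroup.mem_inf.2 ⟨?_, ?_⟩
    · exact hA y (Subgroup.mem_subgroupOf.1 hy)
    · exact Subgroup.mem_subgroupOf.2 (hAB (Subgroup.mem_subgroupOf.1 hy))
  have e1 : (A.subgroupOf N).relIndex (ε.ker ⊓ B.subgroupOf N) *
      (ε.ker ⊓ B.subgroupOf N).index = (A.subgroupOf N).index :=
    Subgroup.relIndex_mul_index hle
  have e2 : (ε.ker ⊓ B.subgroupOf N).relIndex (B.subgroupOf N) *
      (B.subgroupOf N).index = (ε.ker ⊓ B.subgroupOf N).index :=
    Subgroup.relIndex_mul_index inf_le_right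
  have e3 : 2 ∣ (ε.ker ⊓ B.subgroupOf N).relIndex (B.subgroupOf N) := by
    rw [Subgroup.inf_relIndex_right, Subgroup.relIndex_ker]
    have hm : ε x = -1 := by
      rcases Int.units_eq_one_or (ε x) with h | h
      · exact absurd h hne
      · exact h
    have hmem : (-1 : ℤˣ) ∈ (B.subgroupOf N).map ε := ⟨x, hxB, hm⟩
    have ho : orderOf (⟨-1, hmem⟩ : (B.subgroupOf N).map ε) = 2 := by
      rw [← Subgroup.orderOf_coe]
      refine orderOf_eq_prime ?_ ?_
      · exact Int.units_sq _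
      · change (-1 : ℤˣ) ≠ 1
        decide
    rw [← ho]
    exact orderOf_dvd_natCard _
  have e4 : 2 ∣ (B.subgroupOf N).index := by
    by_contra hodd
    obtain ⟨g, hg⟩ := exists_conj_mem_of_odd (B.subgroupOf N) ⟨c, hcN⟩ (Subtype.ext hc2) hodd
    have hg' : (g : G)⁻¹ * c * (g : G) ∈ B := hg
    have := hconj (g : G)⁻¹
    rw [inv_inv] at this
    exact this hg'
  have e5 : (2 * 2) ∣ (A.subgroupOf N).index := by
    rw [← e1, ← e2]
    exact Dvd.dvd.mul_left (mul_dvd_mul e3 e4) _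
  exact e5

theorem st_TRG : ST_TRG := by
  intro G _ _ c A B ε hAB hc2 hconj hA h4 x hx
  by_contra hne
  exact h4 (trg_aux _ A B c (Subgroup.subset_normalClosure (Set.mem_singleton c)) ε hAB hc2
    hconj hA x hx hne)

end BKA
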