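import Pool.Agent.Helper64.BKA.Stmts3

/-!
# CJG: complex conjugation of the Euler product of a representation with real traces
-/

set_option autoImplicit false

open scoped Classical ComplexConjugate

namespace BKA

theorem cj_ext {G : Type} [Group G] [Finite G] (H : Subgroup G) (χ : H →* ℂˣ) (y : G) :
    ext H χ⁻¹ y = conj (ext H χ y) := by
  unfold ext
  split_ifs with h
  · have hf : IsOfFinOrder (χ ⟨y, h⟩) := χ.isOfFinOrder (isOfFinOrder_of_finite _)
    obtain ⟨n, hn, hp⟩ := hf.exists_pow_eq_one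
    have h1 : ((χ ⟨y, h⟩ : ℂˣ) : ℂ) ^ n = 1 := by
      rw [← Units.val_pow_eq_pow_val, hp, Units.val_one]
    have h2 : ‖((χ ⟨y, h⟩ : ℂˣ) : ℂ)‖ = 1 := Complex.norm_eq_one_of_pow_eq_one h1 hn.ne'
    rw [MonoidHom.inv_apply, Units.val_inv_eq_inv_val, Complex.inv_eq_conj h2]
  · simp

theorem cj_euler {G : Type} [Group G] [Fintype G] (H : Subgroup G) (χ : H →* ℂˣ) (g : G) (Y : ℂ) :
    euler H χ⁻¹ g (conj Y) = conj (euler H χ g Y) := by
  unfold euler
  rw [map_prod]
  refine Finset.prod_congr rfl fun o _ => ?_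
  rw [map_sub, map_mul, map_pow, map_one, cj_ext]

theorem cj_pair {a b : ℂ} (h1 : (a + b).im = 0) (h2 : (a * b).im = 0) :
    (conj a = a ∧ conj b = b) ∨ (conj a = b ∧ conj b = a) := by
  have e1 : conj a + conj b = a + b := by
    rw [← map_add]; exact Complex.conj_eq_iff_im.2 h1
  have e2 : conj a * conj b = a * b := by
    rw [← map_mul]; exact Complex.conj_eq_iff_im.2 h2
  have e3 : (conj a - a) * (conj a - b) = 0 := by
    linear_combination (conj a) * e1 - e2
  rcases mul_eq_zero.1 e3 with h | h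
  · left
    have h3 : conj a = a := sub_eq_zero.1 h
    exact ⟨h3, by linear_combination e1 - h3⟩
  · right
    have h3 : conj a = b := sub_eq_zero.1 h
    exact ⟨h3, by linear_combination e1 - h3⟩

theorem cj_factor {G : Type} [Group G] [Fintype G] (H : Subgroup G) (χ : H →* ℂˣ) (g : G)
    (α : Fin 2 → ℂ) (q : ℕ) (s : ℂ) (h1 : (α 0 + α 1).im = 0) (h2 : (α 0 * α 1).im = 0) :
    ∏ j : Fin 2, (euler H χ⁻¹ g (α j * (q : ℂ) ^ (-s)))⁻¹ =
      conj (∏ j : Fin 2, (euler H χ g (α j * (q : ℂ) ^ (-(conj s))))⁻¹) := by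
  have hq : (q : ℂ) ^ (-s) = conj ((q : ℂ) ^ (-(conj s))) := by
    have := Complex.conj_cpow (q : ℂ) (-s) (by
      rw [Complex.natCast_arg]; exact Real.pi_ne_zero.symm)
    rw [Complex.conj_natCast, map_neg] at this
    exact this
  rw [map_prod, Fin.prod_univ_two, Fin.prod_univ_two, hq, map_inv₀, map_inv₀, ← cj_euler,
    ← cj_euler, map_mul, map_mul]
  rcases cj_pair h1 h2 with ⟨ha, hb⟩ | ⟨ha, hb⟩
  · rw [ha, hb]
  · rw [ha, hb, mul_comm]

theorem st_CJG : ST_CJG := by
  intro G _ _ I q g α H χ s h1 h2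
  unfold LL
  have h3 : ∀ f : I → ℂ, conj (∏' v, f v) = ∏' v, conj (f v) := fun f =>
    Function.LeftInverse.map_tprod (g := starRingEnd ℂ) (g' := starRingEnd ℂ) f
      Complex.continuous_conj Complex.continuous_conj (fun z => Complex.conj_conj z)
  rw [h3]
  exact tprod_congr fun v => cj_factor H χ (g v) (α v) (q v) s (h1 v) (h2 v)

end BKA
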