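import Pool.Agent.Helper64.BKA.Stmts3

/-!
# CJM: complex conjugation of a meromorphic function
-/

set_option autoImplicit false

open Filter Topology
open scoped ComplexConjugate

namespace BKA

theorem cj_tendsto (s : ℂ) : Tendsto (fun z : ℂ => conj z) (𝓝[≠] s) (𝓝[≠] (conj s)) := by
  refine tendsto_nhdsWithin_iff.2 ⟨?_, ?_⟩
  · exact (Complex.continuous_conj.tendsto s).mono_left nhdsWithin_le_nhds
  · filter_upwards [self_mem_nhdsWithin] with z hz h
    exact hz (star_injective h)

theorem cj_analyticAt {f : ℂ → ℂ} {s : ℂ} (hf : AnalyticAt ℂ f (conj s)) :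
    AnalyticAt ℂ (fun z => conj (f (conj z))) s := by
  rw [Complex.analyticAt_iff_eventually_differentiableAt] at hf ⊢
  have h2 := (Complex.continuous_conj.tendsto s).eventually hf
  filter_upwards [h2] with z hz
  exact differentiableAt_conj_conj_iff.2 hz

theorem cj_meromorphicAt {f : ℂ → ℂ} {s : ℂ} (hf : MeromorphicAt f (conj s)) :
    MeromorphicAt (fun z => conj (f (conj z))) s := by
  obtain ⟨n, hn⟩ := hf
  refine ⟨n, ?_⟩
  refine (cj_analyticAt hn).congr (Eventually.of_forall fun z => ?_)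
  simp [smul_eq_mul]

theorem st_CJM : ST_CJM := by
  intro Λ hΛ
  refine ⟨fun s _ => cj_meromorphicAt (hΛ (conj s) trivial), fun s => ?_⟩
  have h1 : MeromorphicAt Λ (conj s) := hΛ (conj s) trivial
  have h2 := cj_meromorphicAt h1
  by_cases ht : meromorphicOrderAt Λ (conj s) = ⊤
  · rw [ht, meromorphicOrderAt_eq_top_iff]
    rw [meromorphicOrderAt_eq_top_iff] at ht
    filter_upwards [(cj_tendsto s).eventually ht] with z hz
    simp [hz]
  · obtain ⟨n, hn⟩ := WithTop.ne_top_iff_exists.1 ht
    rw [← hn, meromorphicOrderAt_eq_int_iff h2]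
    obtain ⟨g, hg1, hg2, hg3⟩ := (meromorphicOrderAt_eq_int_iff h1).1 hn.symm
    refine ⟨fun z => conj (g (conj z)), cj_analyticAt hg1, ?_, ?_⟩
    · simpa using hg2
    · filter_upwards [(cj_tendsto s).eventually hg3] with z hz
      simp [hz, smul_eq_mul]

end BKA
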